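import Pool.Agent.H47.PD.Stm
import Pool.Agent.H47.PF.Al

/-!
# Project PD: assembly
-/

set_option autoImplicit false

namespace Pool.Agent.H47.PD.Asm

open Matrix Polynomial NumberField Filter Topology Pool.Agent.W401.Cheb
open Pool.Agent.H47.PF Pool.Agent.H47.PF.Cnt Pool.Agent.H47.PF.Lk Pool.Agent.Y109.PI Pool.Agent.Q128.PI
  Pool.Agent.Helper929

noncomputable section

/-- the primes with the property `R` have lower natural density at least `c` -/
def LowDens (R : ℕ → Prop) (c : ℝ) : Prop :=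
  ∀ ε : ℝ, 0 < ε → ∀ᶠ N : ℕ in atTop,
    (c - ε) * (Nat.primeCounting N : ℝ) ≤ Nat.card {p : ℕ // p ≤ N ∧ p.Prime ∧ R p}

theorem lowDens_of (R S : ℕ → Prop) (c δ : ℝ) (D : ℕ) (hD : 0 < D) (hc : c ≤ δ)
    (h : Tendsto (fun N : ℕ => (Nat.card {p : ℕ // p ≤ N ∧ p.Prime ∧ R p} : ℝ) / (Nat.primeCounting N : ℝ)) atTop
      (𝓝 δ))
    (hRS : ∀ p, p.Prime → ¬ p ∣ D → R p → S p) : LowDens S c := by
  intro ε hε
  have h1 := h.eventually_const_lt (show δ - ε / 2 < δ by linarith)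
  have ht : Tendsto (fun N : ℕ => (Nat.primeCounting N : ℝ)) atTop atTop :=
    tendsto_natCast_atTop_atTop.comp Nat.tendsto_primeCounting
  have h2 := ht.eventually_ge_atTop ((D : ℝ) * (2 / ε))
  have h3 := ht.eventually_gt_atTop 0
  filter_upwards [h1, h2, h3] with N h1 h2 h3
  rw [lt_div_iff₀ h3] at h1
  have h4 : Nat.card {p : ℕ // p ≤ N ∧ p.Prime ∧ R p} ≤ Nat.card {p : ℕ // p ≤ N ∧ p.Prime ∧ S p} + D := by
    have e1 : {p : ℕ | p ≤ N ∧ p.Prime ∧ R p} ⊆ {p : ℕ | p ≤ N ∧ p.Prime ∧ S p} ∪ (D.divisors : Set ℕ) := by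
      rintro p ⟨a1, a2, a3⟩
      by_cases hpD : p ∣ D
      · right
        simp [hpD, hD.ne']
      · left
        exact ⟨a1, a2, hRS p a2 hpD a3⟩
    have f1 : ({p : ℕ | p ≤ N ∧ p.Prime ∧ S p}).Finite := (Set.finite_Iic N).subset fun p hp => hp.1
    have e2 := Set.ncard_le_ncard e1 (f1.union D.divisors.finite_toSet)
    have e3 := Set.ncard_union_le {p : ℕ | p ≤ N ∧ p.Prime ∧ S p} (D.divisors : Set ℕ)
    have e4 : (D.divisors : Set ℕ).ncard ≤ D := by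
      rw [Set.ncard_coe_finset]
      exact Nat.card_divisors_le_self D
    have g1 : Nat.card {p : ℕ // p ≤ N ∧ p.Prime ∧ R p} = ({p : ℕ | p ≤ N ∧ p.Prime ∧ R p}).ncard := rfl
    have g2 : Nat.card {p : ℕ // p ≤ N ∧ p.Prime ∧ S p} = ({p : ℕ | p ≤ N ∧ p.Prime ∧ S p}).ncard := rfl
    omega
  have h5 : (Nat.card {p : ℕ // p ≤ N ∧ p.Prime ∧ R p} : ℝ) ≤ Nat.card {p : ℕ // p ≤ N ∧ p.Prime ∧ S p} + D := by
    exact_mod_cast h4
  have h6 : (D : ℝ) ≤ ε / 2 * (Nat.primeCounting N : ℝ) := by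
    have := mul_le_mul_of_nonneg_left h2 (show 0 ≤ ε / 2 by linarith)
    have e : ε / 2 * ((D : ℝ) * (2 / ε)) = D := by
      field_simp
    linarith
  have h7 : (c - ε) * (Nat.primeCounting N : ℝ) ≤ (δ - ε) * Nat.primeCounting N :=
    mul_le_mul_of_nonneg_right (by linarith) h3.le
  nlinarith

/-- the Pfaffian polynomial -/
def fp (g : ℕ) (w a : Fin (2 * g) → Fin (2 * g) → ℤ) : ℤ[X] :=
  pf (2 * g) ((dif a).map C + (X : ℤ[X]) • (dif w).map C)

theorem fp_sq (g : ℕ) (w a : Fin (2 * g) → Fin (2 * g) → ℤ) :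
    fp g w a ^ 2 = ((dif a).map C + (X : ℤ[X]) • (dif w).map C).det :=
  Pool.Agent.Q46.PX.pf_sq_poly g (dif a) (dif w) (alt_dif a).2 (alt_dif w).2

theorem fp_eval (g : ℕ) (w a : Fin (2 * g) → Fin (2 * g) → ℤ) (t : ℤ) :
    (dif a + t • dif w).det = (fp g w a).eval t ^ 2 := by
  rw [fp, pf_pencil_eval, pf_sq_int]
  intro u v
  rw [Matrix.add_apply, Matrix.add_apply, Matrix.smul_apply, Matrix.smul_apply, (alt_dif a).2 u v,
    (alt_dif w).2 u v]
  simp only [smul_eq_mul]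
  ring

theorem fp_deg (g : ℕ) (w a : Fin (2 * g) → Fin (2 * g) → ℤ) (hdet : (dif w).det ≠ 0) :
    (fp g w a).natDegree = g ∧ (fp g w a).leadingCoeff ^ 2 = (dif w).det := by
  have hcoef : (fp g w a ^ 2).coeff (2 * g) = (dif w).det := by
    rw [fp_sq, add_comm]
    have := Polynomial.coeff_det_X_add_C_card (dif w) (dif a)
    rw [Fintype.card_fin] at this
    exact this
  have h1 : 2 * g ≤ (fp g w a ^ 2).natDegree := le_natDegree_of_ne_zero (by rw [hcoef]; exact hdet)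
  have h2 : (fp g w a ^ 2).natDegree ≤ 2 * g := by
    rw [fp_sq, add_comm]
    have := Polynomial.natDegree_det_X_add_C_le (dif w) (dif a)
    rw [Fintype.card_fin] at this
    exact this
  rw [natDegree_pow] at h1 h2
  have h3 : (fp g w a).natDegree = g := by omega
  refine ⟨h3, ?_⟩
  rw [← hcoef, ← leadingCoeff_pow, leadingCoeff, natDegree_pow, h3]

/-- the vectors modulo `p` whose pencil is of type `n` -/
def B (g : ℕ) (w : Fin (2 * g) → Fin (2 * g) → ℤ) (n p : ℕ) : Set (Fin (2 * g) × Fin (2 * g) → ZMod p) :=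
  {a | ∃ (hp : p.Prime), haveI : Fact p.Prime := ⟨hp⟩
    ∃ (c : ZMod p) (f : (ZMod p)[X]), c ≠ 0 ∧ Pat n f ∧
      (((Matrix.of fun u v => a (u, v)) - (Matrix.of fun u v => a (u, v))ᵀ).map C +
        (X : (ZMod p)[X]) • (red p (dif w)).map C).det = C c * (f.comp (-X)) ^ 2}

theorem pat_fp (hPat : S_PAT) (g : ℕ) (w a : Fin (2 * g) → Fin (2 * g) → ℤ) (n p : ℕ) [Fact p.Prime]
    (h : (fun i : Fin (2 * g) × Fin (2 * g) => ((a i.1 i.2 : ℤ) : ZMod p)) ∈ B g w n p) :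
    Pat n ((fp g w a).map (Int.castRingHom (ZMod p))) := by
  obtain ⟨_, c, f, hc, hf, h1⟩ := h
  refine hPat (ZMod p) n f _ c hc hf ?_
  rw [← h1, ← Polynomial.map_pow, fp_sq]
  change Polynomial.mapRingHom (Int.castRingHom (ZMod p)) _ = _
  rw [RingHom.map_det]
  congr 1
  ext1 u v
  simp [dif, red, Matrix.map_apply]

theorem card_B (hCh : S_CHARP) (hTyp : S_TYP) (g : ℕ) (hg : 0 < g) (w : Fin (2 * g) → Fin (2 * g) → ℤ)
    (hdet : (dif w).det ≠ 0) (n : ℕ) (hn : 2 ≤ n) (hng : n ≤ g) :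
    ∃ c : ℝ, 0 < c ∧ ∃ p₀ : ℕ, ∀ p : ℕ, p.Prime → p₀ ≤ p →
      c * (p : ℝ) ^ Fintype.card (Fin (2 * g) × Fin (2 * g)) ≤ Nat.card (B g w n p) := by
  obtain ⟨c, hc, p₁, h1⟩ := hTyp g n hn hng
  have hcyc : Tendsto (fun q : ℕ => Cnt.cyc q g) atTop (𝓝 1) := by
    have e1 : Tendsto (fun q : ℕ => ∏ m ∈ Finset.range (g - 1), (1 - 1 / (q : ℝ) ^ (2 * (m + 1)))) atTop
        (𝓝 (∏ _m ∈ Finset.range (g - 1), (1 - 0 : ℝ))) := by
      refine tendsto_finset_prod _ fun m _ => ?_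
      refine Tendsto.sub tendsto_const_nhds ?_
      have : Tendsto (fun q : ℕ => (q : ℝ) ^ (2 * (m + 1))) atTop atTop :=
        (tendsto_pow_atTop (by omega)).comp tendsto_natCast_atTop_atTop
      refine this.inv_tendsto_atTop.congr fun q => ?_
      rw [Pi.inv_apply, one_div]
    unfold Cnt.cyc
    simpa using e1
  obtain ⟨p₂, h2⟩ := eventually_atTop.1 (hcyc.eventually_const_le (show (1 / 2 : ℝ) < 1 by norm_num))
  refine ⟨1 / 2 * c, by positivity, max (max p₁ p₂) ((dif w).det.natAbs + 1), fun p hp hpp => ?_⟩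
  haveI : Fact p.Prime := ⟨hp⟩
  haveI : NeZero p := ⟨hp.ne_zero⟩
  have hpd : ¬ (p : ℤ) ∣ (dif w).det := by
    intro h
    have h3 := Nat.le_of_dvd (Int.natAbs_pos.2 hdet) (Int.natCast_dvd.1 h)
    have := (le_max_right (max p₁ p₂) ((dif w).det.natAbs + 1)).trans hpp
    omega
  have hp1 : p₁ ≤ p := ((le_max_left p₁ p₂).trans (le_max_left _ _)).trans hpp
  have hp2 : p₂ ≤ p := ((le_max_right p₁ p₂).trans (le_max_left _ _)).trans hpp
  have hcard : Fintype.card (ZMod p) = p := ZMod.card p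
  set E : Matrix (Fin (2 * g)) (Fin (2 * g)) (ZMod p) := red p (dif w) with hE
  have hEa : Altn E := altn_red p w
  have hEd : IsUnit E.det := isUnit_det w hpd
  have h3 := Cnt.count (F := ZMod p) Pool.Agent.H47.PF.Fin.cyc Pool.Agent.H47.PF.Fin.last E g hEa hEd (by simp) hg
    _ (e_ne hg) {c : Fin g → ZMod p | Pat n (X ^ g + ∑ j : Fin g, C (c j) * X ^ (j : ℕ) : (ZMod p)[X])} c
    (by rw [hcard]; exact h1 p hp1) hc.le
    (fun w' => ∃ (c : ZMod p) (f : (ZMod p)[X]), c ≠ 0 ∧ Pat n f ∧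
      ((w' - w'ᵀ).map C + (X : (ZMod p)[X]) • E.map C).det = C c * (f.comp (-X)) ^ 2) (by
      rintro w' hcy ⟨c', hc', hch⟩
      refine ⟨E.det, X ^ g + ∑ j : Fin g, C (c' j) * X ^ (j : ℕ), hEd.ne_zero, hc', ?_⟩
      have h4 := hCh (ZMod p) (Fin (2 * g)) E (w' - w'ᵀ) _ g c' hEa.1 (by
          ext u v; rw [Matrix.transpose_apply, Matrix.neg_apply]; exact hEa.2 v u)
        (fun u => by simp) (by rw [Matrix.transpose_sub, Matrix.transpose_transpose, neg_sub]) hEd (by simp) hcy hch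
      have h5 := congrArg (fun q : (ZMod p)[X] => q.comp (-X)) h4
      simp only [Polynomial.mul_comp, Polynomial.C_comp, Polynomial.pow_comp] at h5
      rw [← h5]
      have e1 : (((X : (ZMod p)[X]) • E.map C - (w' - w'ᵀ).map C).det).comp (-X) =
          ((-X : (ZMod p)[X]) • E.map C - (w' - w'ᵀ).map C).det := by
        change Polynomial.compRingHom (-X) _ = _
        rw [RingHom.map_det]
        congr 1
        ext1 u v
        simp [Matrix.map_apply]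
      rw [e1]
      have e2 : ((-X : (ZMod p)[X]) • E.map C - (w' - w'ᵀ).map C) =
          -((w' - w'ᵀ).map C + (X : (ZMod p)[X]) • E.map C) := by
        rw [neg_smul, neg_add]
        abel
      rw [e2, Matrix.det_neg, Fintype.card_fin, Even.neg_one_pow (even_two_mul g), one_mul])
  rw [hcard] at h3
  have e1 : (Nat.card (Matrix (Fin (2 * g)) (Fin (2 * g)) (ZMod p)) : ℝ) =
      (p : ℝ) ^ Fintype.card (Fin (2 * g) × Fin (2 * g)) := by
    have : Nat.card (Matrix (Fin (2 * g)) (Fin (2 * g)) (ZMod p)) =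
        Nat.card (Fin (2 * g) × Fin (2 * g) → ZMod p) :=
      Nat.card_congr (Equiv.curry (Fin (2 * g)) (Fin (2 * g)) (ZMod p)).symm
    rw [this, Nat.card_fun, Nat.card_eq_fintype_card, Nat.card_eq_fintype_card, hcard]
    push_cast
    rfl
  have e2 : Nat.card {w' : Matrix (Fin (2 * g)) (Fin (2 * g)) (ZMod p) //
      ∃ (c : ZMod p) (f : (ZMod p)[X]), c ≠ 0 ∧ Pat n f ∧
      ((w' - w'ᵀ).map C + (X : (ZMod p)[X]) • E.map C).det = C c * (f.comp (-X)) ^ 2} = Nat.card (B g w n p) := by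
    refine Nat.card_congr (Equiv.subtypeEquiv (Equiv.curry (Fin (2 * g)) (Fin (2 * g)) (ZMod p)).symm fun w' => ?_)
    constructor
    · intro h
      exact ⟨hp, h⟩
    · rintro ⟨_, h⟩
      exact h
  rw [e1, e2] at h3
  refine le_trans ?_ h3
  have := h2 p hp2
  refine mul_le_mul_of_nonneg_right ?_ (by positivity)
  exact mul_le_mul_of_nonneg_right this hc.le

/-- the primes with highly divisible Pfaffians -/
def Hi (g : ℕ) (w a : Fin (2 * g) → Fin (2 * g) → ℤ) (p : ℕ) : Prop :=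
  ∀ m : ℕ, ∃ t : ℤ, (p : ℤ) ^ m ∣ (fp g w a).eval t

theorem core (hDENS : S_DENS) (hHENS : S_HENS) (hCheb : Chebotarev) (hTor : TaskTor) (g : ℕ) (hg : 0 < g)
    (w a : Fin (2 * g) → Fin (2 * g) → ℤ) (hdet : (dif w).det ≠ 0) (h k : ℤ[X]) (hfk : fp g w a = h * k)
    (hirr : Irreducible (h.map (Int.castRingHom ℚ))) (L : Type) [Field L] [NumberField L] [IsGalois ℚ L]
    (hL : Spl h L) (c : ℝ)
    (hc : c ≤ (Nat.card {σ : Gal(L/ℚ) // ∃ r : Rt h L, act h L σ r = r} : ℝ) / Nat.card Gal(L/ℚ)) :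
    LowDens (Hi g w a) c := by
  have hf0 : fp g w a ≠ 0 := by
    intro h0
    have := (fp_deg g w a hdet).1
    rw [h0, natDegree_zero] at this
    omega
  obtain ⟨D, hD, hH⟩ := hHENS h (fp g w a) hirr hf0
  refine lowDens_of (fun p => ∃ x : ℤ, (p : ℤ) ∣ h.eval x) _ c _ D hD hc (hDENS hCheb hTor h L hL hirr) ?_
  intro p hp hpD hroot m
  obtain ⟨x, hx, hx0⟩ := hH p hp hpD hroot m
  refine ⟨x, ?_⟩
  rw [hfk, eval_mul]
  exact hx.mul_right _

theorem every (hEX : S_EX) (hFAC : S_FAC) (hTRANS : S_TRANS) (hINJ : S_INJ) (hBURN : S_BURN) (hDENS : S_DENS)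
    (hHENS : S_HENS) (hCheb : Chebotarev) (hTor : TaskTor) (g : ℕ) (hg : 0 < g)
    (w a : Fin (2 * g) → Fin (2 * g) → ℤ) (hdet : (dif w).det ≠ 0) : LowDens (Hi g w a) (1 / g) := by
  obtain ⟨hdeg, -⟩ := fp_deg g w a hdet
  obtain ⟨h, k, hfk, hd, hirr⟩ := hFAC (fp g w a) (by rw [hdeg]; exact hg)
  obtain ⟨L, _, _, _, hL⟩ := hEX h
  refine core hDENS hHENS hCheb hTor g hg w a hdet h k hfk hirr L hL _ ?_
  have hX : Nat.card (Rt h L) = h.natDegree := (hINJ h L hL).2 hirr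
  have hf0 : fp g w a ≠ 0 := by
    intro h0
    rw [h0, natDegree_zero] at hdeg
    omega
  have hle : h.natDegree ≤ g := by
    rw [← hdeg]
    exact natDegree_le_of_dvd ⟨k, hfk⟩ hf0
  obtain ⟨hne, hfin⟩ := Nat.card_pos_iff.1 (hX ▸ hd)
  have hB := hBURN Gal(L/ℚ) (Rt h L) (act h L) (hTRANS h L hirr)
  rw [hX] at hB
  have hG : (0 : ℝ) < Nat.card Gal(L/ℚ) := by exact_mod_cast Nat.card_pos
  have hg' : (0 : ℝ) < g := by exact_mod_cast hg
  rw [div_le_div_iff₀ hg' hG, one_mul]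
  have h1 : Nat.card Gal(L/ℚ) ≤ g * Nat.card {σ : Gal(L/ℚ) // ∃ r : Rt h L, act h L σ r = r} :=
    hB.trans (Nat.mul_le_mul_right _ hle)
  have h2 : (Nat.card Gal(L/ℚ) : ℝ) ≤ g * Nat.card {σ : Gal(L/ℚ) // ∃ r : Rt h L, act h L σ r = r} := by
    exact_mod_cast h1
  linarith

theorem pat_irr {p n : ℕ} [Fact p.Prime] (f : ℤ[X]) (hl : ¬ (p : ℤ) ∣ f.leadingCoeff) (hn : f.natDegree = n)
    (h : Pat n (f.map (Int.castRingHom (ZMod p)))) : Irreducible (f.map (Int.castRingHom (ZMod p))) := by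
  obtain ⟨u, q, R, hu, hq, hqn, hf⟩ := h
  have h1 : (f.map (Int.castRingHom (ZMod p))).natDegree = n := by
    rw [natDegree_map_of_leadingCoeff_ne_zero, hn]
    rw [eq_intCast, Ne, ZMod.intCast_zmod_eq_zero_iff_dvd]
    exact hl
  have hP0 : (∏ r ∈ R, (X - C r)) ≠ 0 := Finset.prod_ne_zero_iff.2 fun r _ => X_sub_C_ne_zero r
  have h2 : (f.map (Int.castRingHom (ZMod p))).natDegree = n + R.card := by
    rw [hf, natDegree_mul (mul_ne_zero (C_ne_zero.2 hu) hq.ne_zero) hP0, natDegree_C_mul hu, hqn,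
      natDegree_prod_of_monic _ _ fun r _ => monic_X_sub_C r]
    simp
  have h3 : R = ∅ := Finset.card_eq_zero.1 (by omega)
  rw [hf, h3, Finset.prod_empty, mul_one]
  exact (irreducible_isUnit_mul (isUnit_C.2 (isUnit_iff_ne_zero.2 hu))).2 hq

theorem generic (hPat : S_PAT) (hIRR : S_IRR) (hEX : S_EX) (hINJ : S_INJ) (hCYC : S_CYCLE) (hSYM : S_SYMM)
    (hDER : S_DER) (hDENS : S_DENS) (hHENS : S_HENS) (hCheb : Chebotarev) (hTor : TaskTor) (g : ℕ) (hg : 2 ≤ g)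
    (w a : Fin (2 * g) → Fin (2 * g) → ℤ) (hdet : (dif w).det ≠ 0)
    (hn : ∀ n, 2 ≤ n → n ≤ g → ∃ p : ℕ, p.Prime ∧ ¬ (p : ℤ) ∣ (dif w).det ∧
      (fun i : Fin (2 * g) × Fin (2 * g) => ((a i.1 i.2 : ℤ) : ZMod p)) ∈ B g w n p) :
    LowDens (Hi g w a) (1 - ∑ k ∈ Finset.range (g + 1), (-1) ^ k / (k.factorial : ℝ)) := by
  obtain ⟨hdeg, hlead⟩ := fp_deg g w a hdet
  have hl : ∀ p : ℕ, ¬ (p : ℤ) ∣ (dif w).det → ¬ (p : ℤ) ∣ (fp g w a).leadingCoeff := by
    intro p hp h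
    apply hp
    rw [← hlead]
    exact dvd_pow h (by norm_num)
  have hirr : Irreducible ((fp g w a).map (Int.castRingHom ℚ)) := by
    obtain ⟨p, hp, hpd, hB⟩ := hn g hg le_rfl
    haveI : Fact p.Prime := ⟨hp⟩
    exact hIRR _ p (hl p hpd) (pat_irr _ (hl p hpd) hdeg (pat_fp hPat g w a g p hB))
  obtain ⟨L, _, _, _, hL⟩ := hEX (fp g w a)
  have hX : Nat.card (Rt (fp g w a) L) = g := by rw [(hINJ _ L hL).2 hirr, hdeg]
  haveI : Finite (Rt (fp g w a) L) := (Nat.card_pos_iff.1 (by rw [hX]; omega)).2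
  have hf0 : fp g w a ≠ 0 := by
    intro h0
    rw [h0, natDegree_zero] at hdeg
    omega
  have htop := hSYM (Rt (fp g w a) L) (act (fp g w a) L).range (by rw [hX]; exact hg) (by
    intro n hn2 hn'
    rw [hX] at hn'
    obtain ⟨p, hp, hpd, hB⟩ := hn n hn2 (by omega)
    haveI : Fact p.Prime := ⟨hp⟩
    obtain ⟨σ, h1, h2⟩ := hCYC (fp g w a) L hL p n hn2 (hl p hpd) (pat_fp hPat g w a n p hB)
    exact ⟨_, ⟨σ, rfl⟩, h1, h2⟩)
  have hbij : Function.Bijective (act (fp g w a) L) :=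
    ⟨(hINJ _ L hL).1 hf0, MonoidHom.range_eq_top.1 htop⟩
  refine core hDENS hHENS hCheb hTor g (by omega) w a hdet _ 1 (by rw [mul_one]) hirr L hL _ (le_of_eq ?_)
  have h3 := hDER (Rt (fp g w a) L)
  rw [hX] at h3
  rw [← h3]
  have e1 : Nat.card Gal(L/ℚ) = Nat.card (Equiv.Perm (Rt (fp g w a) L)) :=
    Nat.card_congr (Equiv.ofBijective _ hbij)
  have e2 : Nat.card {σ : Gal(L/ℚ) // ∃ r : Rt (fp g w a) L, act (fp g w a) L σ r = r} =
      Nat.card {σ : Equiv.Perm (Rt (fp g w a) L) // ∃ x, σ x = x} :=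
    Nat.card_congr ((Equiv.ofBijective _ hbij).subtypeEquiv fun σ => Iff.rfl)
  rw [e1, e2]

theorem almost_all (hCh : S_CHARP) (hTyp : S_TYP) (hBOX : S_BOX) (hPat : S_PAT) (hIRR : S_IRR) (hEX : S_EX)
    (hINJ : S_INJ) (hCYC : S_CYCLE) (hSYM : S_SYMM) (hDER : S_DER) (hDENS : S_DENS) (hHENS : S_HENS)
    (hFAC : S_FAC) (hTRANS : S_TRANS) (hBURN : S_BURN)
    (hCheb : Chebotarev) (hTor : TaskTor) (g : ℕ) (hg : 0 < g)
    (w : Fin (2 * g) → Fin (2 * g) → ℤ) (hdet : (dif w).det ≠ 0) :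
    Tendsto (fun H : ℕ => (Nat.card {a : Fin (2 * g) × Fin (2 * g) → Fin H //
      ¬ LowDens (Hi g w fun u v => ((a (u, v) : ℕ) : ℤ))
        (1 - ∑ k ∈ Finset.range (g + 1), (-1) ^ k / (k.factorial : ℝ))} : ℝ) / (H : ℝ) ^ ((2 * g) ^ 2))
      atTop (𝓝 0) := by
  rcases (show g = 1 ∨ 2 ≤ g by omega) with rfl | hg2
  · have h0 : ∀ H : ℕ, Nat.card {a : Fin (2 * 1) × Fin (2 * 1) → Fin H //
        ¬ LowDens (Hi 1 w fun u v => ((a (u, v) : ℕ) : ℤ))
          (1 - ∑ k ∈ Finset.range (1 + 1), (-1) ^ k / (k.factorial : ℝ))} = 0 := by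
      intro H
      haveI : IsEmpty {a : Fin (2 * 1) × Fin (2 * 1) → Fin H //
        ¬ LowDens (Hi 1 w fun u v => ((a (u, v) : ℕ) : ℤ))
          (1 - ∑ k ∈ Finset.range (1 + 1), (-1) ^ k / (k.factorial : ℝ))} := by
        refine ⟨fun a => a.2 ?_⟩
        have h1 := every hEX hFAC hTRANS hINJ hBURN hDENS hHENS hCheb hTor 1 hg w
          (fun u v => ((a.1 (u, v) : ℕ) : ℤ)) hdet
        have e : (1 / ((1 : ℕ) : ℝ)) = 1 - ∑ k ∈ Finset.range (1 + 1), (-1) ^ k / (k.factorial : ℝ) := by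
          simp [Finset.sum_range_succ]
        rwa [e] at h1
      exact Nat.card_of_isEmpty
    simp only [h0, Nat.cast_zero, zero_div]
    exact tendsto_const_nhds
  have hc := fun n : ℕ => fun h1 : 2 ≤ n => fun h2 : n ≤ g => card_B hCh hTyp g hg w hdet n h1 h2
  choose! c hc0 p₀ hp₀ using hc
  set q : ℕ := (∑ n ∈ Finset.range (g + 1), p₀ n) + ((dif w).det.natAbs + 1) with hq
  have hqn : ∀ n, n ≤ g → p₀ n ≤ q := by
    intro n hn
    have hm : n ∈ Finset.range (g + 1) := Finset.mem_range.2 (by omega)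
    have := Finset.single_le_sum (f := p₀) (fun i _ => Nat.zero_le _) hm
    omega
  have hqd : ∀ p, q ≤ p → ¬ (p : ℤ) ∣ (dif w).det := by
    intro p hp h
    have h3 := Nat.le_of_dvd (Int.natAbs_pos.2 hdet) (Int.natCast_dvd.1 h)
    omega
  have hbox := fun n : ℕ => fun (h1 : 2 ≤ n) (h2 : n ≤ g) =>
    hBOX (Fin (2 * g) × Fin (2 * g)) (B g w n) (c n) q (hc0 n h1 h2)
      (fun p hp hpq => hp₀ n h1 h2 p hp ((hqn n h2).trans hpq))
  have e1 : Fintype.card (Fin (2 * g) × Fin (2 * g)) = (2 * g) ^ 2 := by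
    rw [Fintype.card_prod, Fintype.card_fin, sq]
  rw [e1] at hbox
  have hsum : Tendsto (fun H : ℕ => ∑ n ∈ Finset.Icc 2 g,
      (Nat.card {a : Fin (2 * g) × Fin (2 * g) → Fin H //
        ∀ p : ℕ, p.Prime → q ≤ p → (fun i => ((a i : ℕ) : ZMod p)) ∉ B g w n p} : ℝ) / (H : ℝ) ^ ((2 * g) ^ 2))
      atTop (𝓝 0) := by
    have := tendsto_finset_sum (Finset.Icc 2 g) fun n hn => hbox n (Finset.mem_Icc.1 hn).1 (Finset.mem_Icc.1 hn).2
    simpa using this
  refine squeeze_zero (fun H => by positivity) (fun H => ?_) hsum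
  rw [← Finset.sum_div]
  refine div_le_div_of_nonneg_right ?_ (by positivity)
  have hsub : {a : Fin (2 * g) × Fin (2 * g) → Fin H | ¬ LowDens (Hi g w fun u v => ((a (u, v) : ℕ) : ℤ))
        (1 - ∑ k ∈ Finset.range (g + 1), (-1) ^ k / (k.factorial : ℝ))} ⊆
      ⋃ n ∈ Finset.Icc 2 g, {a : Fin (2 * g) × Fin (2 * g) → Fin H |
        ∀ p : ℕ, p.Prime → q ≤ p → (fun i => ((a i : ℕ) : ZMod p)) ∉ B g w n p} := by
    intro a ha
    by_contra hcon
    apply ha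
    refine generic hPat hIRR hEX hINJ hCYC hSYM hDER hDENS hHENS hCheb hTor g hg2 w _ hdet ?_
    intro n h1 h2
    simp only [Set.mem_iUnion, not_exists] at hcon
    have h3 := hcon n (Finset.mem_Icc.2 ⟨h1, h2⟩)
    simp only [Set.mem_setOf_eq, not_forall, not_not] at h3
    obtain ⟨p, hp, hpq, h4⟩ := h3
    refine ⟨p, hp, hqd p hpq, ?_⟩
    convert h4 using 1
    ext i
    simp
  have h5 : Nat.card {a : Fin (2 * g) × Fin (2 * g) → Fin H // ¬ LowDens (Hi g w fun u v => ((a (u, v) : ℕ) : ℤ))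
        (1 - ∑ k ∈ Finset.range (g + 1), (-1) ^ k / (k.factorial : ℝ))} ≤
      ∑ n ∈ Finset.Icc 2 g, Nat.card {a : Fin (2 * g) × Fin (2 * g) → Fin H //
        ∀ p : ℕ, p.Prime → q ≤ p → (fun i => ((a i : ℕ) : ZMod p)) ∉ B g w n p} := by
    refine (Set.ncard_le_ncard hsub (Set.toFinite _)).trans ?_
    exact Finset.set_ncard_biUnion_le _ _
  exact_mod_cast h5

end

end Pool.Agent.H47.PD.Asm
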