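import Pool.Agent.H47.PD.Asm

/-!
# Project PD: composite periods
-/

set_option autoImplicit false

namespace Pool.Agent.H47.PD.Comp

open Matrix Polynomial Pool.Agent.H47.PF Pool.Agent.H47.PF.Cnt Pool.Agent.H47.PF.Lk Pool.Agent.H47.PF.Fx
open Pool.Agent.Helper346.Bra Pool.Agent.Helper18.Br Pool.Agent.H552R3.SymBr Pool.Agent.H552R3.SymPred
  Pool.Agent.H552R3.Tsen Pool.Agent.Y109.PI Pool.Agent.Q128.PI Pool.Agent.Helper929

noncomputable section

universe u

theorem exists_mult_n (g : ℕ) (hg : 0 < g) (d : Fin g → ℤ) (h0 : ∏ i, d i ≠ 0) (n : ℕ) :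
    0 < n → (n : ℤ) ∣ ∏ i, d i →
    ∃ m : Fin g → ℕ, (∀ i, (n : ℤ) ∣ m i * d i) ∧ ∏ i, m i ∣ n ^ (g - 1) ∧ 0 < ∏ i, m i := by
  induction n using Nat.recOnPosPrimePosCoprime with
  | prime_pow p k hp hk =>
    intro _ h
    exact Pool.Agent.Q46.PX.exists_mult p hp k g hg d (by exact_mod_cast h) h0
  | zero => intro h; exact absurd h (lt_irrefl 0)
  | one =>
    intro _ _
    exact ⟨fun _ => 1, fun i => by simp, by simp, by simp⟩
  | coprime a b ha hb hab iha ihb =>
    intro _ h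
    have h1 : (a : ℤ) ∣ ∏ i, d i := (Dvd.intro (b : ℤ) (by push_cast; rfl)).trans h
    have h2 : (b : ℤ) ∣ ∏ i, d i := (Dvd.intro_left (a : ℤ) (by push_cast; rfl)).trans h
    obtain ⟨m, m1, m2, m3⟩ := iha (by omega) h1
    obtain ⟨l, l1, l2, l3⟩ := ihb (by omega) h2
    refine ⟨fun i => m i * l i, fun i => ?_, ?_, ?_⟩
    · have e1 : (a : ℤ) ∣ ((m i * l i : ℕ) : ℤ) * d i := by
        rw [show ((m i * l i : ℕ) : ℤ) * d i = (l i : ℤ) * (m i * d i) by push_cast; ring]
        exact (m1 i).mul_left _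
      have e2 : (b : ℤ) ∣ ((m i * l i : ℕ) : ℤ) * d i := by
        rw [show ((m i * l i : ℕ) : ℤ) * d i = (m i : ℤ) * (l i * d i) by push_cast; ring]
        exact (l1 i).mul_left _
      have e3 : IsCoprime (a : ℤ) (b : ℤ) := Nat.isCoprime_iff_coprime.2 hab
      have := e3.mul_dvd e1 e2
      exact_mod_cast this
    · rw [Finset.prod_mul_distrib, mul_pow]
      exact mul_dvd_mul m2 l2
    · rw [Finset.prod_mul_distrib]
      exact Nat.mul_pos m3 l3

theorem exists_t (f : ℤ[X]) (hf : f ≠ 0) (n : ℕ) (hn : 0 < n)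
    (h : ∀ p : ℕ, p.Prime → p ∣ n → ∀ m : ℕ, ∃ t : ℤ, (p : ℤ) ^ m ∣ f.eval t) :
    ∃ t : ℤ, (n : ℤ) ∣ f.eval t ∧ f.eval t ≠ 0 := by
  have h1 : ∀ l : ℕ, 0 < l → l ∣ n → ∃ t : ℤ, (l : ℤ) ∣ f.eval t := by
    intro l
    induction l using Nat.recOnPosPrimePosCoprime with
    | prime_pow p k hp hk =>
      intro _ hl
      obtain ⟨t, ht⟩ := h p hp ((dvd_pow_self p (by omega)).trans hl) k
      exact ⟨t, by exact_mod_cast ht⟩
    | zero => intro h; exact absurd h (lt_irrefl 0)
    | one => intro _ _; exact ⟨0, by simp⟩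
    | coprime a b ha hb hab iha ihb =>
      intro _ hl
      obtain ⟨s, hs⟩ := iha (by omega) ((Dvd.intro b rfl).trans hl)
      obtain ⟨t, ht⟩ := ihb (by omega) ((Dvd.intro_left a rfl).trans hl)
      have e3 : IsCoprime (a : ℤ) (b : ℤ) := Nat.isCoprime_iff_coprime.2 hab
      obtain ⟨u, v, huv⟩ := e3
      refine ⟨s * (v * b) + t * (u * a), ?_⟩
      have e1 : (a : ℤ) ∣ f.eval (s * (v * b) + t * (u * a)) := by
        have := f.sub_dvd_eval_sub (s * (v * b) + t * (u * a)) s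
        have e : (a : ℤ) ∣ s * (v * b) + t * (u * a) - s := ⟨u * (t - s), by linear_combination s * huv⟩
        exact (dvd_sub_left hs).1 (e.trans this) |> fun h => h
      have e2 : (b : ℤ) ∣ f.eval (s * (v * b) + t * (u * a)) := by
        have := f.sub_dvd_eval_sub (s * (v * b) + t * (u * a)) t
        have e : (b : ℤ) ∣ s * (v * b) + t * (u * a) - t := ⟨v * (s - t), by linear_combination t * huv⟩
        exact (dvd_sub_left ht).1 (e.trans this) |> fun h => h
      have := (Nat.isCoprime_iff_coprime.2 hab).mul_dvd e1 e2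
      exact_mod_cast this
  obtain ⟨t, ht⟩ := h1 n hn dvd_rfl
  by_contra hcon
  push Not at hcon
  have hinf : ∀ s : ℤ, f.eval (t + n * s) = 0 := by
    intro s
    refine hcon _ ?_
    have := f.sub_dvd_eval_sub (t + n * s) t
    have e : (n : ℤ) ∣ t + n * s - t := ⟨s, by ring⟩
    exact (dvd_sub_left ht).1 (e.trans this)
  refine hf (Polynomial.eq_zero_of_infinite_isRoot f ?_)
  refine Set.Infinite.mono (s := Set.range fun s : ℤ => t + n * s) ?_ (Set.infinite_range_of_injective ?_)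
  · rintro _ ⟨s, rfl⟩
    exact hinf s
  · intro s s' hs
    simpa [hn.ne'] using hs

section

variable {k K : Type u} [Field k] [IsAlgClosed k] [Field K] [Algebra k K]

include k in
/-- a translate by a relation with a highly divisible Pfaffian has small index -/
theorem index_of_pf_n (n : ℕ) (hn : 0 < n) {ζ : K} (hζ : IsPrimitiveRoot ζ n) (g : ℕ)
    (hg : 0 < g) (z : Fin (2 * g) → Kˣ) (w a : Fin (2 * g) → Fin (2 * g) → ℤ)
    (hw : Q (symHom hn hζ) z w = 1) (t P : ℤ) (hdet : (dif a + t • dif w).det = P ^ 2) (hP : (n : ℤ) ∣ P)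
    (hP0 : P ≠ 0) : IndDvd (Q (symHom hn hζ) z a) (n ^ (g - 1)) := by
  let b : Fin (2 * g) → Fin (2 * g) → ℤ := a + t • w
  have hb : dif b = dif a + t • dif w := by
    ext u v
    simp only [b, dif, Matrix.of_apply, Matrix.add_apply, Pi.add_apply, Pi.smul_apply, Matrix.smul_apply,
      smul_eq_mul]
    ring
  rw [← hb] at hdet
  obtain ⟨e, x, y, hmat, hPd, hd0⟩ := Pool.Agent.Q46.PX.prod_of_det g (by simp) (dif b) (alt_dif _) P hdet hP0
  obtain ⟨l, hl1, hl2, hl3⟩ := exists_mult_n g hg e hd0 n hn (hP.trans hPd)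
  have hQ1 : Q (symHom hn hζ) z a = Q (symHom hn hζ) z b := by
    simp only [b]
    rw [Q_add, Q_smul, hw, _root_.one_zpow, mul_one]
  have hQ2 : Q (symHom hn hζ) z b = ∏ j, symCl hn hζ (mon z (x j)) (mon z (y j)) ^ e j := by
    have h1 : Q (symHom hn hζ) z (∑ j, e j • fun u v => x j u * y j v) =
        ∏ j, symCl hn hζ (mon z (x j)) (mon z (y j)) ^ e j := by
      rw [Q_sum]
      refine Finset.prod_congr rfl fun j _ => ?_
      rw [Q_smul, ← s_mon]
      rfl
    rw [← h1]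
    refine congr_n (k := k) hn hζ z _ _ fun u v => ?_
    have h2 := congrFun (congrFun hmat u) v
    have h3 : (∑ j, e j • fun u v => x j u * y j v : Fin (2 * g) → Fin (2 * g) → ℤ) u v -
        (∑ j, e j • fun u v => x j u * y j v : Fin (2 * g) → Fin (2 * g) → ℤ) v u = dif b u v := by
      rw [h2]
      simp only [Matrix.sum_apply, Matrix.smul_apply, wdg, Matrix.of_apply, smul_eq_mul, Finset.sum_apply,
        Pi.smul_apply, ← Finset.sum_sub_distrib]
      refine Finset.sum_congr rfl fun j _ => ?_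
      ring
    rw [h3]
    simp [dif]
  rw [hQ1, hQ2]
  have h1 := Pool.Agent.Q46.PX.ind_roots hn g (∏ j, l j) hl3 K ζ hζ (fun j => mon z (x j)) (fun j => mon z (y j)) l e
    rfl hl1
  intro D _ _ _ _ hD
  exact (h1 D hD).trans hl2

end

end

end Pool.Agent.H47.PD.Comp
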