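import Pool.Agent.H47.PD.Asm
import Pool.Agent.H47.L.R_seed8.W401.Cheb.Main
import Pool.Agent.H47.PD.T.ROOTS
import Pool.Agent.H47.PD.T.FROBEX
import Pool.Agent.H47.PD.T.CYCLE
import Pool.Agent.H47.PD.T.SYMM
import Pool.Agent.H47.PD.T.EX
import Pool.Agent.H47.PD.T.IRR
import Pool.Agent.H47.PD.T.FAC
import Pool.Agent.H47.PD.T.TRANS
import Pool.Agent.H47.PD.T.INJ
import Pool.Agent.H47.PD.T.DER
import Pool.Agent.H47.PD.T.BURN
import Pool.Agent.H47.PD.T.FIX
import Pool.Agent.H47.PD.T.DENS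
import Pool.Agent.H47.PD.T.HENS
import Pool.Agent.H47.PD.T.IRC
import Pool.Agent.H47.PD.T.TYP
import Pool.Agent.H47.PD.T.BOX
import Pool.Agent.H47.PD.T.CHARP
import Pool.Agent.H47.PD.T.PAT

/-!
# Project PD: all parts
-/

set_option autoImplicit false

namespace Pool.Agent.H47.PD.Fin

open Pool.Agent.H47.PD Pool.Agent.Y109.PI Filter Topology

theorem roots : S_ROOTS := ROOTS.main
theorem cycle : S_CYCLE := CYCLE.main roots FROBEX.main
theorem dens : S_DENS := DENS.main (FIX.main roots)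
theorem typ : S_TYP := TYP.main IRC.main

theorem every (g : ℕ) (hg : 0 < g) (w a : Fin (2 * g) → Fin (2 * g) → ℤ) (hdet : (dif w).det ≠ 0) :
    Asm.LowDens (Asm.Hi g w a) (1 / g) :=
  Asm.every EX.main FAC.main TRANS.main INJ.main BURN.main dens HENS.main Pool.Agent.W401.Cheb.chebotarev
    W54.ChTor.main g hg w a hdet

theorem almost_all (g : ℕ) (hg : 0 < g) (w : Fin (2 * g) → Fin (2 * g) → ℤ) (hdet : (dif w).det ≠ 0) :
    Tendsto (fun H : ℕ => (Nat.card {a : Fin (2 * g) × Fin (2 * g) → Fin H //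
      ¬ Asm.LowDens (Asm.Hi g w fun u v => ((a (u, v) : ℕ) : ℤ))
        (1 - ∑ k ∈ Finset.range (g + 1), (-1) ^ k / (k.factorial : ℝ))} : ℝ) / (H : ℝ) ^ ((2 * g) ^ 2))
      atTop (𝓝 0) :=
  Asm.almost_all CHARP.main typ BOX.main PAT.main T.IRR.main EX.main INJ.main cycle T.SYMM.main T.DER.main dens HENS.main
    FAC.main TRANS.main BURN.main Pool.Agent.W401.Cheb.chebotarev W54.ChTor.main g hg w hdet

end Pool.Agent.H47.PD.Fin
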