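import Pool.Agent.H47.L.R_seed8.W401.Cheb.Defs

/-!
# Project PD (MP_43d240_ag): the density of the primes for which an integral polynomial has a root

`h` is an integral polynomial (not monic in general), `L` its splitting field over `ℚ`.
`HasFrob p φ σ` (file `H47/L/R_seed8/W401/Cheb/Defs.lean`): `φ (σ • x) = φ x ^ p` for all `x` in `𝓞 L`.
-/

set_option autoImplicit false

namespace Pool.Agent.H47.PD

open Matrix Polynomial NumberField Filter Topology Pool.Agent.W401.Cheb

/-- the roots in `L` -/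
abbrev Rt (h : ℤ[X]) (L : Type) [Field L] : Type := {r : L // aeval r h = 0}

/-- an automorphism as a permutation of the roots -/
noncomputable def act (h : ℤ[X]) (L : Type) [Field L] [NumberField L] : Gal(L/ℚ) →* Equiv.Perm (Rt h L) where
  toFun σ :=
    { toFun := fun r => ⟨σ r.1, by
        have e : aeval (σ r.1) h = σ (aeval r.1 h) := Polynomial.aeval_algHom_apply (σ : L →+* L).toIntAlgHom r.1 h
        rw [e, r.2, map_zero]⟩
      invFun := fun r => ⟨σ.symm r.1, by
        have e : aeval (σ.symm r.1) h = σ.symm (aeval r.1 h) :=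
          Polynomial.aeval_algHom_apply (σ.symm : L →+* L).toIntAlgHom r.1 h
        rw [e, r.2, map_zero]⟩
      left_inv := fun r => by simp
      right_inv := fun r => by simp }
  map_one' := by ext; simp
  map_mul' := fun σ τ => by ext; simp

/-- `L` is the splitting field of `h` over `ℚ` -/
abbrev Spl (h : ℤ[X]) (L : Type) [Field L] [NumberField L] : Prop :=
  IsSplittingField ℚ L (h.map (Int.castRingHom ℚ))

/-- `f` is the product of an irreducible polynomial of degree `n` and of distinct linear factors -/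
def Pat {F : Type} [Field F] (n : ℕ) (f : F[X]) : Prop :=
  ∃ (u : F) (q : F[X]) (R : Finset F), u ≠ 0 ∧ Irreducible q ∧ q.natDegree = n ∧ f = C u * q * ∏ r ∈ R, (X - C r)

/-- PD-ROOTS. Reduction of the roots. Let `b` be the leading coefficient of `h`, `p ∤ b`. For a root `r` of `h` the
element `b r` is integral; put `ψ r = φ (b r) / φ b`. In `𝓞 L [X]`: `b ^ (d-1) h(X) = …`; precisely
`b ^ (d-1) h(y / b) = ∏ (y - b r_i)` is an identity of monic polynomials in `y` over `𝓞 L`; apply `φ`. -/
def S_ROOTS : Prop := ∀ (h : ℤ[X]) (L : Type) [Field L] [NumberField L] [IsGalois ℚ L], Spl h L →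
  ∀ (p : ℕ) [Fact p.Prime], ¬ (p : ℤ) ∣ h.leadingCoeff →
  ∀ φ : 𝓞 L →+* AlgebraicClosure (ZMod p), ∃ ψ : L → AlgebraicClosure (ZMod p),
    (h.map (Int.castRingHom (AlgebraicClosure (ZMod p)))).roots = ((h.map (Int.castRingHom L)).roots).map ψ ∧
    ∀ σ : Gal(L/ℚ), HasFrob p φ σ → ∀ r : L, aeval r h = 0 → ψ (σ r) = ψ r ^ p

/-- PD-FROBEX. Existence of Frobenius elements: for a prime `Q` above `p` of the ring of integers `A` of a Galois
number field, embed `A ⧸ Q` in the algebraic closure of `ZMod p`; Mathlib has the existence of arithmetic Frobenius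
elements (`IsArithFrobAt`, `AlgHom.IsArithFrobAt`, `exists_of_isInvariant`), or use the surjectivity of the
decomposition group on the automorphisms of the residue field. -/
def S_FROBEX : Prop := ∀ (L : Type) [Field L] [NumberField L] [IsGalois ℚ L] (p : ℕ) [Fact p.Prime],
  ∃ (φ : 𝓞 L →+* AlgebraicClosure (ZMod p)) (σ : Gal(L/ℚ)), HasFrob p φ σ

/-- PD-CYCLE (from ROOTS, FROBEX). If `h` modulo `p` is an irreducible polynomial of degree `n ≥ 2` times distinct
linear factors, then a Frobenius element is a cycle of length `n` on the roots. Proof: the roots of `h` modulo `p` in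
the algebraic closure are distinct (`q` is separable, and it has no roots in `ZMod p`), so `ψ` is injective on
the roots of `h` and these are distinct; `x ↦ x ^ p` on the roots of `h` modulo `p` fixes exactly those in `ZMod p` and
is an `n`-cycle on the roots of `q` (the roots of `q` are `α ^ (p ^ i)`, `i < n`). -/
def S_CYCLE : Prop := ∀ (h : ℤ[X]) (L : Type) [Field L] [NumberField L] [IsGalois ℚ L], Spl h L →
  ∀ (p n : ℕ) [Fact p.Prime], 2 ≤ n → ¬ (p : ℤ) ∣ h.leadingCoeff →
  Pat n (h.map (Int.castRingHom (ZMod p))) →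
  ∃ σ : Gal(L/ℚ), (act h L σ).IsCycle ∧ Nat.card {r // act h L σ r ≠ r} = n

/-- PD-SYMM. A group of permutations of a finite set `X` which contains cycles of the lengths `|X|`, `|X| - 1` and
`2` is the symmetric group. Proof: by the first it is transitive, by the second doubly transitive (the
`(|X|-1)`-cycle is transitive on the complement of its fixed point), so by conjugation it contains all
transpositions (`Equiv.Perm.closure_isSwap`). -/
def S_SYMM : Prop := ∀ (X : Type) [Finite X] (G : Subgroup (Equiv.Perm X)), 2 ≤ Nat.card X →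
  (∀ n : ℕ, 2 ≤ n → (n = Nat.card X ∨ n + 1 = Nat.card X ∨ n = 2) →
    ∃ σ ∈ G, σ.IsCycle ∧ Nat.card {x // σ x ≠ x} = n) → G = ⊤

/-- PD-EX. The splitting field exists (the instance `Algebra ℚ L` is the one of a number field). -/
def S_EX : Prop := ∀ h : ℤ[X], ∃ (L : Type) (_ : Field L) (_ : NumberField L) (_ : IsGalois ℚ L), Spl h L

/-- PD-IRR. Irreducible modulo `p` implies irreducible over `ℚ` (lemma of Gauss; `h` is not monic and not
primitive). -/
def S_IRR : Prop := ∀ (h : ℤ[X]) (p : ℕ) [Fact p.Prime], ¬ (p : ℤ) ∣ h.leadingCoeff →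
  Irreducible (h.map (Int.castRingHom (ZMod p))) → Irreducible (h.map (Int.castRingHom ℚ))

/-- PD-FAC. An integral polynomial of positive degree has an integral factor which is irreducible over `ℚ`. -/
def S_FAC : Prop := ∀ f : ℤ[X], 0 < f.natDegree →
  ∃ h k : ℤ[X], f = h * k ∧ 0 < h.natDegree ∧ Irreducible (h.map (Int.castRingHom ℚ))

/-- PD-TRANS. The Galois group is transitive on the roots of an irreducible polynomial. -/
def S_TRANS : Prop := ∀ (h : ℤ[X]) (L : Type) [Field L] [NumberField L] [IsGalois ℚ L],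
  Irreducible (h.map (Int.castRingHom ℚ)) → ∀ r s : Rt h L, ∃ σ : Gal(L/ℚ), act h L σ r = s

/-- PD-INJ. The Galois group acts faithfully on the roots; `h` irreducible over `ℚ` has `natDegree h` roots. -/
def S_INJ : Prop := ∀ (h : ℤ[X]) (L : Type) [Field L] [NumberField L] [IsGalois ℚ L], Spl h L →
  (h ≠ 0 → Function.Injective (act h L)) ∧
    (Irreducible (h.map (Int.castRingHom ℚ)) → Nat.card (Rt h L) = h.natDegree)

/-- PD-DER. The proportion of the permutations with a fixed point (`card_derangements_eq_numDerangements`,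
`numDerangements_sum`). -/
def S_DER : Prop := ∀ (X : Type) [Finite X],
  (Nat.card {σ : Equiv.Perm X // ∃ x, σ x = x} : ℝ) / Nat.card (Equiv.Perm X) =
    1 - ∑ k ∈ Finset.range (Nat.card X + 1), (-1) ^ k / (k.factorial : ℝ)

/-- PD-BURN. In a transitive group at least the proportion `1 / |X|` of the elements has a fixed point
(`MulAction.sum_card_fixedBy_eq_card_orbits_mul_card_group`). -/
def S_BURN : Prop := ∀ (G X : Type) [Group G] [Finite G] [Finite X] [Nonempty X] (a : G →* Equiv.Perm X),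
  (∀ x y : X, ∃ σ : G, a σ x = y) → Nat.card G ≤ Nat.card X * Nat.card {σ : G // ∃ x : X, a σ x = x}

/-- PD-FIX (from ROOTS). For almost all `p` the polynomial has a root modulo `p` if and only if the Frobenius
elements at `p` fix a root. Proof: let `p` not divide the leading coefficient and the integer `c ≠ 0` with
`A h + B h' = c` over `ℤ` (`h` is irreducible over `ℚ`), so that the roots of `h` modulo `p` are distinct and `ψ`
of ROOTS is injective on the roots; a root modulo `p` is `ψ r` with `ψ r ^ p = ψ r`, that is `σ r = r`. -/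
def S_FIX : Prop := ∀ (h : ℤ[X]) (L : Type) [Field L] [NumberField L] [IsGalois ℚ L], Spl h L →
  Irreducible (h.map (Int.castRingHom ℚ)) →
  ∃ D : ℕ, 0 < D ∧ ∀ (p : ℕ) [Fact p.Prime], ¬ p ∣ D →
    ∀ (φ : 𝓞 L →+* AlgebraicClosure (ZMod p)) (σ : Gal(L/ℚ)), HasFrob p φ σ →
      ((∃ r : Rt h L, act h L σ r = r) ↔ ∃ x : ℤ, (p : ℤ) ∣ h.eval x)

/-- PD-DENS (from FIX and Chebotarev's theorem). The natural density of the primes for which `h` has a root.
Proof: for `p ∤ D` the number `∑_{σ with a fixed root} xp σ p` is the number of all `φ` (which is `|G|`) if `h` has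
a root modulo `p` and `0` otherwise (`TaskTor`: every `φ` has exactly one Frobenius element), so the indicator
function of the primes is `1/|G|` times the sum, up to finitely many primes; take mean values. -/
def S_DENS : Prop := Chebotarev → TaskTor → ∀ (h : ℤ[X]) (L : Type) [Field L] [NumberField L] [IsGalois ℚ L],
  Spl h L → Irreducible (h.map (Int.castRingHom ℚ)) →
  Tendsto (fun N : ℕ => (Nat.card {p : ℕ // p ≤ N ∧ p.Prime ∧ ∃ x : ℤ, (p : ℤ) ∣ h.eval x} : ℝ) /
    (Nat.primeCounting N : ℝ)) atTop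
    (𝓝 ((Nat.card {σ : Gal(L/ℚ) // ∃ r : Rt h L, act h L σ r = r} : ℝ) / Nat.card Gal(L/ℚ)))

/-- PD-HENS. For almost all primes a root modulo `p` gives roots modulo all `p ^ m` (Hensel), not zeros of `f`.
Proof: `p` prime to the leading coefficient and to `c = A h + B h'`; step by step; then
`p ^ m ∣ h(x + p ^ m t)` for all `t`, and `f` has finitely many zeros. -/
def S_HENS : Prop := ∀ h f : ℤ[X], Irreducible (h.map (Int.castRingHom ℚ)) → f ≠ 0 →
  ∃ D : ℕ, 0 < D ∧ ∀ p : ℕ, p.Prime → ¬ p ∣ D → (∃ x : ℤ, (p : ℤ) ∣ h.eval x) →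
    ∀ m : ℕ, ∃ x : ℤ, (p : ℤ) ^ m ∣ h.eval x ∧ f.eval x ≠ 0

/-- PD-IRC. The number of the monic irreducible polynomials of degree `n` over the field with `p` elements is at least
`p ^ n / (2 n)` for large `p`. Proof: in the field with `p ^ n` elements at most `n p ^ (n/2)` elements lie in
a proper subfield (`d ∣ n`, `d ≤ n/2`, the zeros of `X ^ (p ^ d) - X`), and `n p ^ (n/2) ≤ p ^ n / 2` for
`p ≥ 4 n ^ 2`; the others have a minimal polynomial of degree `n`, which has at most `n` roots. -/
def S_IRC : Prop := ∀ n : ℕ, 1 ≤ n → ∃ p₀ : ℕ, ∀ (p : ℕ) [Fact p.Prime], p₀ ≤ p →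
  p ^ n ≤ 2 * n * Nat.card {f : (ZMod p)[X] // f.Monic ∧ Irreducible f ∧ f.natDegree = n}

/-- PD-TYP (from IRC). A positive proportion of the monic polynomials of degree `g` is of the type `Pat n`
(`2 ≤ n ≤ g`). Proof: `(q, R) ↦ q ∏ (X - r)`, `q` monic irreducible of degree `n`, `|R| = g - n`, is injective
(`R` is the set of the roots in the field), there are at least `p ^ n / (2 n)` polynomials `q` and
`C(p, g-n) ≥ (p / 2) ^ (g-n) / (g-n)!` sets `R` for `p ≥ 2 g`. -/
def S_TYP : Prop := ∀ g n : ℕ, 2 ≤ n → n ≤ g → ∃ c : ℝ, 0 < c ∧ ∃ p₀ : ℕ, ∀ (p : ℕ) [Fact p.Prime], p₀ ≤ p →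
  c * (p : ℝ) ^ g ≤ Nat.card {c : Fin g → ZMod p //
    Pat n (X ^ g + ∑ j : Fin g, C (c j) * X ^ (j : ℕ) : (ZMod p)[X])}

/-- PD-BOX. Sieve. If for all primes `p ≥ p₀` the set `B p` of vectors modulo `p` has at least `c p ^ |ι|` elements,
then almost all integral vectors are in `B p` modulo at least one `p ≥ p₀`. Proof: for a finite set `S` of primes
`≥ p₀` with the product `N` the number of the vectors in `[0, N) ^ ι` which are in no `B p`, `p ∈ S`, is
`∏ (p ^ |ι| - |B p|) ≤ (1 - c) ^ |S| N ^ |ι|` by the Chinese remainder theorem; cover `[0, H) ^ ι` by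
`⌈H / N⌉ ^ |ι|` translates of `[0, N) ^ ι`; choose `S` first (`(1 - c) ^ |S|` small, there are infinitely many
primes) and then `H` large, so that `(⌈H/N⌉ N / H) ^ |ι| ≤ 2 ^ |ι|`. -/
def S_BOX : Prop := ∀ (ι : Type) [Fintype ι] (B : ∀ p : ℕ, Set (ι → ZMod p)) (c : ℝ) (p₀ : ℕ), 0 < c →
  (∀ p : ℕ, p.Prime → p₀ ≤ p → c * (p : ℝ) ^ Fintype.card ι ≤ Nat.card (B p)) →
  Tendsto (fun H : ℕ => (Nat.card {a : ι → Fin H //
      ∀ p : ℕ, p.Prime → p₀ ≤ p → (fun i => ((a i : ℕ) : ZMod p)) ∉ B p} : ℝ) / (H : ℝ) ^ Fintype.card ι)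
    atTop (𝓝 0)

/-- PD-CHARP. Let `E` and `A` be alternating matrices of size `2 g`, `det E ≠ 0`, `M = E⁻¹ A`. If the vectors
`e, M e, …, M ^ (g-1) e` are linearly independent and `M ^ g e = - ∑ c_j M ^ j e`, then
`det (X E - A) = det E (X ^ g + ∑ c_j X ^ j) ^ 2`. Proof: `W = span (M ^ j e, j < g)` is `M`-stable, and
`E(M ^ i e, M ^ j e) = 0` (as in PF-ISO, file `H47/PF/T/ISO.lean`), so `W` is its own orthogonal complement (dimension
`g`). Extend the basis `v_j = M ^ j e` of `W` by vectors `u_j` to a basis of the whole space; the matrix `P` with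
these columns has `Pᵀ E P = [[0, B], [-Bᵀ, *]]` with `B` invertible (`B_ij = v_iᵀ E u_j`) and
`Pᵀ A P = [[0, B'], [-B'ᵀ, *]]` with `B'_ij = v_iᵀ A u_j = -(M v_i)ᵀ E u_j`·(sign: `Aᵀ = -A`, `A = E M`, so
`v_iᵀ A = -(A v_i)ᵀ = -(E M v_i)ᵀ = (M v_i)ᵀ E`), so `B' = Kᵀ B` with the companion matrix `K` of `M` on `W`; hence
`det (X E - A) det P ^ 2 = det (X B - B')^2 = det B ^ 2 det (X - K) ^ 2` and `det E det P ^ 2 = det B ^ 2`. Or: the
characteristic polynomial of `M` is the product of those of `M` on `W` and on `V / W`, and `V / W` is dual to `W`. -/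
def S_CHARP : Prop := ∀ (F : Type) [Field F] (I : Type) [Fintype I] [DecidableEq I] (E A : Matrix I I F)
  (e : I → F) (g : ℕ) (c : Fin g → F), (∀ u, E u u = 0) → Eᵀ = -E → (∀ u, A u u = 0) → Aᵀ = -A →
  IsUnit E.det → Fintype.card I = 2 * g →
  LinearIndependent F (fun j : Fin g => ((E⁻¹ * A) ^ (j : ℕ)) *ᵥ e) →
  ((E⁻¹ * A) ^ g) *ᵥ e = -∑ j : Fin g, c j • (((E⁻¹ * A) ^ (j : ℕ)) *ᵥ e) →
  ((X : F[X]) • E.map C - A.map C).det = C E.det * (X ^ g + ∑ j : Fin g, C (c j) * X ^ (j : ℕ)) ^ 2

/-- PD-PAT. The type is not changed by `X ↦ -X` and by constants, and it is determined by the square. -/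
def S_PAT : Prop := ∀ (F : Type) [Field F] (n : ℕ) (f h : F[X]) (c : F), c ≠ 0 → Pat n f →
  h ^ 2 = C c * (f.comp (-X)) ^ 2 → Pat n h

end Pool.Agent.H47.PD
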